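import Pool.Agent.Y772.ND.Stm

/-!
# ND-TAU: an elementary Tauberian inequality
-/

set_option autoImplicit false

open Complex Filter Topology
open scoped ComplexConjugate ArithmeticFunction.vonMangoldt

namespace Pool.Agent.Y532.ND

open Pool.Agent.Y772.ND

lemma Lam_nonneg (n : ℕ) : 0 ≤ Λ n := ArithmeticFunction.vonMangoldt_nonneg

lemma summable_Lam {σ : ℝ} (hσ : 0 < σ) :
    Summable (fun n : ℕ => Λ n * (n : ℝ) ^ (-(1 + σ))) := by
  have h1 := (ArithmeticFunction.LSeriesSummable_vonMangoldt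
    (s := ((1 + σ : ℝ) : ℂ)) (by simpa using hσ)).norm
  refine h1.congr fun n => ?_
  rw [LSeries.norm_term_eq]
  rcases eq_or_ne n 0 with rfl | hn
  · simp
  · rw [if_neg hn, Complex.norm_real, Real.norm_of_nonneg ArithmeticFunction.vonMangoldt_nonneg,
      Complex.ofReal_re, Real.rpow_neg (Nat.cast_nonneg n), div_eq_mul_inv]

lemma summable_bdd {σ : ℝ} (hσ : 0 < σ) (v : ℕ → ℝ) (B : ℝ) (hv : ∀ n, |v n| ≤ B) :
    Summable (fun n : ℕ => v n * Λ n * (n : ℝ) ^ (-(1 + σ))) := by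
  refine Summable.of_norm_bounded ((summable_Lam hσ).mul_left B) fun n => ?_
  have hnn : 0 ≤ Λ n * (n : ℝ) ^ (-(1 + σ)) :=
    mul_nonneg ArithmeticFunction.vonMangoldt_nonneg (Real.rpow_nonneg (Nat.cast_nonneg n) _)
  rw [mul_assoc, norm_mul, Real.norm_of_nonneg hnn]
  exact mul_le_mul_of_nonneg_right (hv n) hnn

open ArithmeticFunction.vonMangoldt in
/-- the upper bound for `σ Σ Λ(n) n^(-1-σ)` -/
lemma upper : ∃ C : ℝ, 0 < C ∧ ∀ σ : ℝ, 0 < σ → σ ≤ 1 →
    σ * ∑' n : ℕ, Λ n * (n : ℝ) ^ (-(1 + σ)) ≤ C := by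
  have ha : IsUnit (0 : ZMod 1) := by
    rw [Subsingleton.elim (0 : ZMod 1) 1]
    exact isUnit_one
  have hres : ∀ n : ℕ, residueClass (0 : ZMod 1) n = Λ n := by
    intro n
    unfold residueClass
    rw [Set.indicator_of_mem]
    exact Subsingleton.elim _ _
  have H {x : ℝ} (hx : 1 < x) :
      ∑' n, residueClass (0 : ZMod 1) n / (n : ℝ) ^ x =
        (LFunctionResidueClassAux (0 : ZMod 1) x).re + ((1 : ℕ).totient : ℝ)⁻¹ / (x - 1) := by
    refine ofReal_injective ?_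
    simp only [ofReal_tsum, ofReal_div, ofReal_cpow (Nat.cast_nonneg _), ofReal_natCast,
      ofReal_add, ofReal_inv, ofReal_sub, ofReal_one]
    simp_rw [← LFunctionResidueClassAux_real ha hx,
      eqOn_LFunctionResidueClassAux ha <| Set.mem_ofPred.mpr (ofReal_re x ▸ hx), sub_add_cancel,
      LSeries, LSeries.term]
    refine tsum_congr fun n ↦ ?_
    split_ifs with hn
    · simp only [hn, residueClass_apply_zero, ofReal_zero, zero_div]
    · rfl
  have hc : ContinuousOn (fun x : ℝ ↦ (LFunctionResidueClassAux (0 : ZMod 1) x).re)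
      (Set.Icc 1 2) :=
    continuous_re.continuousOn.comp (t := Set.univ)
      (continuousOn_LFunctionResidueClassAux (0 : ZMod 1))
      (fun ⦃x⦄ a ↦ trivial) |>.comp continuous_ofReal.continuousOn fun x hx ↦ by
        simpa only [Set.mem_ofPred_eq, ofReal_re] using hx.1
  obtain ⟨C, hC⟩ := isCompact_Icc.exists_bound_of_continuousOn hc
  have hC0 : 0 ≤ C := (norm_nonneg _).trans (hC 1 ⟨le_rfl, one_le_two⟩)
  refine ⟨C + 1, by linarith, fun σ hσ hσ1 => ?_⟩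
  have h1 : ∑' n : ℕ, Λ n * (n : ℝ) ^ (-(1 + σ)) =
      ∑' n, residueClass (0 : ZMod 1) n / (n : ℝ) ^ (1 + σ) := by
    refine tsum_congr fun n => ?_
    rw [hres, Real.rpow_neg (Nat.cast_nonneg n), div_eq_mul_inv]
  rw [h1, H (by linarith)]
  have h2 := hC (1 + σ) ⟨by linarith, by linarith⟩
  have h3 : (LFunctionResidueClassAux (0 : ZMod 1) (1 + σ : ℝ)).re ≤ C :=
    (le_abs_self _).trans h2
  have h4 : ((1 : ℕ).totient : ℝ)⁻¹ / (1 + σ - 1) = 1 / σ := by
    simp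
  rw [h4, mul_add, mul_one_div_cancel hσ.ne']
  nlinarith

theorem t_TAU : P_TAU := by
  classical
  intro D c f g hD hc hf hg hev
  obtain ⟨C, hC0, hC⟩ := upper
  -- the lower bound for the average of `|f|²`
  set c' : ℝ := c ^ 2 / (D ^ 2 * C) with hc'
  have hc'0 : 0 < c' := by positivity
  have hf2 : ∀ n, |‖f n‖ ^ 2| ≤ D ^ 2 := fun n => by
    rw [abs_of_nonneg (sq_nonneg _)]
    exact pow_le_pow_left₀ (norm_nonneg _) (hf n) 2
  have hr : ∀ (σ : ℝ) (n : ℕ), 0 ≤ Λ n * (n : ℝ) ^ (-(1 + σ)) := fun σ n =>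
    mul_nonneg (Lam_nonneg n) (Real.rpow_nonneg (Nat.cast_nonneg n) _)
  have hlow : ∀ᶠ σ : ℝ in 𝓝[>] 0, c' ≤
      σ * ∑' n : ℕ, ‖f n‖ ^ 2 * Λ n * (n : ℝ) ^ (-(1 + σ)) := by
    have h1 : ∀ᶠ σ : ℝ in 𝓝[>] 0, σ ≤ 1 := by
      filter_upwards [Ioc_mem_nhdsGT (zero_lt_one (α := ℝ))] with σ hσ using hσ.2
    filter_upwards [hev, h1, self_mem_nhdsWithin] with σ hσ hσ1 hσ0
    have hσ0' : (0 : ℝ) < σ := hσ0
    have hb : ∀ n, |(f n * conj (g n)).re| ≤ D * D := by
      intro n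
      refine (Complex.abs_re_le_norm _).trans ?_
      rw [norm_mul, Complex.norm_conj]
      exact mul_le_mul (hf n) (hg n) (norm_nonneg _) hD.le
    have hs1 := summable_bdd hσ0' _ _ hb
    have hs2 := summable_bdd hσ0' _ _ hf2
    have hs3 := summable_Lam hσ0'
    have hS : σ * ∑' n : ℕ, Λ n * (n : ℝ) ^ (-(1 + σ)) ≤ C := hC σ hσ0' hσ1
    -- pointwise
    have hpt : ∀ n : ℕ, (f n * conj (g n)).re * Λ n * (n : ℝ) ^ (-(1 + σ)) ≤
        D ^ 2 * C / (2 * c) * (‖f n‖ ^ 2 * Λ n * (n : ℝ) ^ (-(1 + σ))) +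
          c / (2 * C) * (Λ n * (n : ℝ) ^ (-(1 + σ))) := by
      intro n
      have e1 : (f n * conj (g n)).re ≤ D * ‖f n‖ := by
        refine (Complex.re_le_norm _).trans ?_
        rw [norm_mul, Complex.norm_conj, mul_comm]
        exact mul_le_mul_of_nonneg_right (hg n) (norm_nonneg _)
      have e2 : D * ‖f n‖ ≤ D ^ 2 * C / (2 * c) * ‖f n‖ ^ 2 + c / (2 * C) := by
        have e3 : D ^ 2 * C / (2 * c) * ‖f n‖ ^ 2 + c / (2 * C) - D * ‖f n‖ =
            (D * C * ‖f n‖ - c) ^ 2 / (2 * c * C) := by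
          field_simp
          ring
        have e4 : 0 ≤ (D * C * ‖f n‖ - c) ^ 2 / (2 * c * C) := by positivity
        linarith
      have e5 := mul_le_mul_of_nonneg_right (e1.trans e2) (hr σ n)
      calc (f n * conj (g n)).re * Λ n * (n : ℝ) ^ (-(1 + σ))
          = (f n * conj (g n)).re * (Λ n * (n : ℝ) ^ (-(1 + σ))) := by ring
        _ ≤ _ := e5
        _ = _ := by ring
    have hsum := hs1.tsum_le_tsum hpt ((hs2.mul_left _).add (hs3.mul_left _))
    rw [(hs2.mul_left _).tsum_add (hs3.mul_left _), tsum_mul_left, tsum_mul_left] at hsum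
    have h5 := mul_le_mul_of_nonneg_left hsum hσ0'.le
    have h6 : c ≤ D ^ 2 * C / (2 * c) * (σ * ∑' n : ℕ, ‖f n‖ ^ 2 * Λ n * (n : ℝ) ^ (-(1 + σ))) +
        c / (2 * C) * (σ * ∑' n : ℕ, Λ n * (n : ℝ) ^ (-(1 + σ))) := by
      refine hσ.trans (h5.trans (le_of_eq ?_))
      ring
    have h7 : c / (2 * C) * (σ * ∑' n : ℕ, Λ n * (n : ℝ) ^ (-(1 + σ))) ≤ c / 2 := by
      refine (mul_le_mul_of_nonneg_left hS (by positivity)).trans (le_of_eq ?_)
      field_simp
    have h8 : c / 2 ≤ D ^ 2 * C / (2 * c) *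
        (σ * ∑' n : ℕ, ‖f n‖ ^ 2 * Λ n * (n : ℝ) ^ (-(1 + σ))) := by linarith
    have h9 : c' = c / 2 / (D ^ 2 * C / (2 * c)) := by
      rw [hc']
      field_simp
    rw [h9, div_le_iff₀' (by positivity)]
    exact h8
  -- the sum over the numbers which are not prime
  have hnp : Summable (fun n : ℕ => (if n.Prime then 0 else Λ n) / (n : ℝ)) := by
    have h := ArithmeticFunction.vonMangoldt.summable_residueClass_non_primes_div (q := 1) (a := 0)
    refine h.congr fun n => ?_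
    congr 1
    split_ifs with hn
    · rfl
    · unfold ArithmeticFunction.vonMangoldt.residueClass
      rw [Set.indicator_of_mem]
      exact Subsingleton.elim _ _
  set W : ℝ := ∑' n : ℕ, (if n.Prime then 0 else Λ n) / (n : ℝ) with hW
  have hnp0 : ∀ n : ℕ, 0 ≤ (if n.Prime then 0 else Λ n) / (n : ℝ) := by
    intro n
    split_ifs
    · simp
    · exact div_nonneg (Lam_nonneg n) (Nat.cast_nonneg n)
  -- the choice of `K`
  obtain ⟨K, hK0, hK⟩ : ∃ K : ℝ, 0 < K ∧ 2 * D ^ 2 * C * Real.exp (-(K / 2)) ≤ c' / 2 := by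
    have h1 : Tendsto (fun K : ℝ => 2 * D ^ 2 * C * Real.exp (-(K / 2))) atTop (𝓝 0) := by
      have h2 : Tendsto (fun K : ℝ => Real.exp (-(K / 2))) atTop (𝓝 0) :=
        Real.tendsto_exp_atBot.comp (tendsto_neg_atTop_atBot.comp
          (tendsto_id.atTop_div_const (by norm_num)))
      simpa using h2.const_mul (2 * D ^ 2 * C)
    obtain ⟨K, h2, h3⟩ := ((h1.eventually (eventually_le_nhds (by positivity : 0 < c' / 2))).and
      (eventually_gt_atTop 0)).exists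
    exact ⟨K, h3, h2⟩
  refine ⟨c' / (4 * K), by positivity, ?_⟩
  have hσt : Tendsto (fun x : ℝ => K / Real.log x) atTop (𝓝[>] 0) := by
    rw [tendsto_nhdsWithin_iff]
    refine ⟨Real.tendsto_log_atTop.const_div_atTop K, ?_⟩
    filter_upwards [eventually_gt_atTop 1] with x hx
    exact div_pos hK0 (Real.log_pos hx)
  have hlog : ∀ᶠ x : ℝ in atTop, 4 * K * (D ^ 2 * W) / c' ≤ Real.log x :=
    Real.tendsto_log_atTop.eventually_ge_atTop _
  have hσ1 : ∀ᶠ x : ℝ in atTop, K / Real.log x / 2 ≤ 1 := by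
    filter_upwards [Real.tendsto_log_atTop.eventually_ge_atTop K,
      Real.tendsto_log_atTop.eventually_gt_atTop 0] with x hx hx0
    rw [div_div, div_le_one (by positivity)]
    linarith
  filter_upwards [hσt.eventually hlow, hlog, hσ1, eventually_gt_atTop 1] with x hx hxl hxs hx1
  have hlx : 0 < Real.log x := Real.log_pos hx1
  set σ : ℝ := K / Real.log x with hσ
  have hσ0 : 0 < σ := div_pos hK0 hlx
  have hx0 : 0 < x := by linarith
  -- the pointwise bound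
  set F : ℕ → ℝ := fun n => if n ∈ Finset.Icc 1 ⌊x⌋₊ then ‖f n‖ ^ 2 * Λ n / n else 0 with hF
  have hFs : Summable F := summable_of_ne_finset_zero (s := Finset.Icc 1 ⌊x⌋₊)
    fun n hn => if_neg hn
  have hpt : ∀ n : ℕ, ‖f n‖ ^ 2 * Λ n * (n : ℝ) ^ (-(1 + σ)) ≤ F n +
      D ^ 2 * Real.exp (-(K / 2)) * (Λ n * (n : ℝ) ^ (-(1 + σ / 2))) := by
    intro n
    have hN := hr (σ / 2) n
    have hΛ := Lam_nonneg n
    have hE := Real.exp_pos (-(K / 2))
    by_cases hn : n ∈ Finset.Icc 1 ⌊x⌋₊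
    · rw [hF]
      simp only
      rw [if_pos hn]
      have hn1 := (Finset.mem_Icc.1 hn).1
      have hr1 : (n : ℝ) ^ (-(1 + σ)) ≤ 1 / (n : ℝ) := by
        rw [one_div, ← Real.rpow_neg_one]
        exact Real.rpow_le_rpow_of_exponent_le (by exact_mod_cast hn1) (by linarith)
      have h1 : ‖f n‖ ^ 2 * Λ n * (n : ℝ) ^ (-(1 + σ)) ≤ ‖f n‖ ^ 2 * Λ n * (1 / n) :=
        mul_le_mul_of_nonneg_left hr1 (mul_nonneg (sq_nonneg _) hΛ)
      have h2 : 0 ≤ D ^ 2 * Real.exp (-(K / 2)) * (Λ n * (n : ℝ) ^ (-(1 + σ / 2))) := by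
        positivity
      rw [mul_one_div] at h1
      linarith
    · rw [hF]
      simp only
      rw [if_neg hn, zero_add]
      rcases Nat.eq_zero_or_pos n with rfl | hn1
      · simp
      have hnx : x < n := by
        by_contra hcon
        push Not at hcon
        exact hn (Finset.mem_Icc.2 ⟨hn1, Nat.le_floor hcon⟩)
      have hn0 : (0 : ℝ) < n := by exact_mod_cast hn1
      have h1 : (n : ℝ) ^ (-(1 + σ)) = (n : ℝ) ^ (-(1 + σ / 2)) * (n : ℝ) ^ (-(σ / 2)) := by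
        rw [← Real.rpow_add hn0]
        congr 1
        ring
      have h2 : (n : ℝ) ^ (-(σ / 2)) ≤ Real.exp (-(K / 2)) := by
        have h3 : (n : ℝ) ^ (-(σ / 2)) ≤ x ^ (-(σ / 2)) :=
          Real.rpow_le_rpow_of_nonpos hx0 hnx.le (by linarith)
        have h4 : x ^ (-(σ / 2)) = Real.exp (-(K / 2)) := by
          rw [Real.rpow_def_of_pos hx0, hσ]
          congr 1
          field_simp
        rwa [h4] at h3
      have h5 : ‖f n‖ ^ 2 ≤ D ^ 2 := pow_le_pow_left₀ (norm_nonneg _) (hf n) 2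
      calc ‖f n‖ ^ 2 * Λ n * (n : ℝ) ^ (-(1 + σ))
          = ‖f n‖ ^ 2 * (n : ℝ) ^ (-(σ / 2)) * (Λ n * (n : ℝ) ^ (-(1 + σ / 2))) := by
            rw [h1]; ring
        _ ≤ D ^ 2 * Real.exp (-(K / 2)) * (Λ n * (n : ℝ) ^ (-(1 + σ / 2))) := by
            refine mul_le_mul_of_nonneg_right ?_ hN
            exact mul_le_mul h5 h2 (Real.rpow_nonneg hn0.le _) (by positivity)
  have hs3 := summable_Lam (half_pos hσ0)
  have hsum := (summable_bdd hσ0 _ _ hf2).tsum_le_tsum hpt (hFs.add (hs3.mul_left _))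
  rw [hFs.tsum_add (hs3.mul_left _), tsum_mul_left] at hsum
  have hFt : ∑' n, F n = ∑ n ∈ Finset.Icc 1 ⌊x⌋₊, ‖f n‖ ^ 2 * Λ n / n := by
    rw [tsum_eq_sum (s := Finset.Icc 1 ⌊x⌋₊) fun n hn => if_neg hn]
    exact Finset.sum_congr rfl fun n hn => if_pos hn
  have hmain : c' / 2 ≤ σ * ∑ n ∈ Finset.Icc 1 ⌊x⌋₊, ‖f n‖ ^ 2 * Λ n / n := by
    have h1 := mul_le_mul_of_nonneg_left hsum hσ0.le
    rw [hFt] at h1
    have h2 := hC (σ / 2) (half_pos hσ0) hxs
    have h3 : σ * (D ^ 2 * Real.exp (-(K / 2)) * ∑' n : ℕ, Λ n * (n : ℝ) ^ (-(1 + σ / 2))) =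
        2 * D ^ 2 * Real.exp (-(K / 2)) *
          (σ / 2 * ∑' n : ℕ, Λ n * (n : ℝ) ^ (-(1 + σ / 2))) := by ring
    have h4 : 2 * D ^ 2 * Real.exp (-(K / 2)) *
          (σ / 2 * ∑' n : ℕ, Λ n * (n : ℝ) ^ (-(1 + σ / 2))) ≤
        2 * D ^ 2 * Real.exp (-(K / 2)) * C := mul_le_mul_of_nonneg_left h2 (by positivity)
    have h5 : 2 * D ^ 2 * Real.exp (-(K / 2)) * C = 2 * D ^ 2 * C * Real.exp (-(K / 2)) := by ring
    rw [mul_add, h3] at h1
    linarith
  -- prime powers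
  have hpp : ∑ n ∈ Finset.Icc 1 ⌊x⌋₊, ‖f n‖ ^ 2 * Λ n / n ≤
      ∑ n ∈ (Finset.Icc 1 ⌊x⌋₊).filter Nat.Prime, ‖(Λ n : ℂ) * f n‖ ^ 2 / (n * Real.log n) +
        D ^ 2 * W := by
    rw [Finset.sum_filter]
    have h1 : ∀ n ∈ Finset.Icc 1 ⌊x⌋₊, ‖f n‖ ^ 2 * Λ n / n ≤
        (if n.Prime then ‖(Λ n : ℂ) * f n‖ ^ 2 / (n * Real.log n) else 0) +
          D ^ 2 * ((if n.Prime then 0 else Λ n) / (n : ℝ)) := by
      intro n hn
      by_cases hp : n.Prime
      · rw [if_pos hp, if_pos hp, zero_div, mul_zero, add_zero,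
          ArithmeticFunction.vonMangoldt_apply_prime hp]
        have hl : 0 < Real.log n := Real.log_pos (by exact_mod_cast hp.one_lt)
        have hn0 : (0 : ℝ) < n := by exact_mod_cast hp.pos
        rw [norm_mul, Complex.norm_real, Real.norm_of_nonneg hl.le]
        refine le_of_eq ?_
        field_simp
      · rw [if_neg hp, if_neg hp, zero_add, ← mul_div_assoc]
        exact div_le_div_of_nonneg_right (mul_le_mul_of_nonneg_right
          (pow_le_pow_left₀ (norm_nonneg _) (hf n) 2) (Lam_nonneg n)) (Nat.cast_nonneg n)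
    refine (Finset.sum_le_sum h1).trans ?_
    rw [Finset.sum_add_distrib, ← Finset.mul_sum]
    have h2 : ∑ n ∈ Finset.Icc 1 ⌊x⌋₊, (if n.Prime then 0 else Λ n) / (n : ℝ) ≤ W :=
      hnp.sum_le_tsum _ fun n _ => hnp0 n
    have h3 := mul_le_mul_of_nonneg_left h2 (sq_nonneg D)
    linarith
  have h1 : c' * Real.log x / (2 * K) ≤ ∑ n ∈ Finset.Icc 1 ⌊x⌋₊, ‖f n‖ ^ 2 * Λ n / n := by
    have h2 : c' * Real.log x / (2 * K) = c' / 2 / σ := by
      rw [hσ]
      field_simp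
    rw [h2, div_le_iff₀' hσ0]
    exact hmain
  have h2 : D ^ 2 * W ≤ c' / (4 * K) * Real.log x := by
    rw [div_le_iff₀' hc'0] at hxl
    rw [div_mul_eq_mul_div, le_div_iff₀' (by positivity)]
    exact hxl
  have h3 : c' * Real.log x / (2 * K) = c' / (4 * K) * Real.log x + c' / (4 * K) * Real.log x := by
    field_simp
    ring
  linarith

end Pool.Agent.Y532.ND
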